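import Pool.Agent.P.MP_746f10_nt.AZ.All

namespace Pool.Agent.Results.MP_746f10_nt.FixedFirstForm

/-- For every first form with `a 0 ≤ Q ^ δ` and all integers `a i` in `[Q, Q ^ (3 / 2)]`, `i ≠ 0`,
at most a proportion `ε` of the admissible tuples `b` with `1 ≤ b i < a i` and `b 0 = b0` have
fewer than `c ∏ (a i / φ (a i)) Q / (log Q) ^ (k + 1)` integers `Q ≤ n < 2 Q` at which all the
values `a i n + b i` are prime. -/
theorem result (k : ℕ) : ∃ c δ : ℝ, 0 < c ∧ 0 < δ ∧ ∀ ε : ℝ, 0 < ε → ∃ Q0 : ℕ, ∀ Q : ℕ, Q0 ≤ Q →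
    ∀ (a : Fin (k + 1) → ℕ) (b0 : ℕ), (a 0 : ℝ) ≤ (Q : ℝ) ^ δ →
      (∀ i, i ≠ 0 → Q ≤ a i ∧ a i ^ 2 ≤ Q ^ 3) →
      (Set.ncard {b : Fin (k + 1) → ℕ | (∀ i, 1 ≤ b i ∧ b i < a i) ∧ b 0 = b0 ∧
        (∀ p : ℕ, p.Prime → ∃ n : ℕ, ∀ i, ¬ p ∣ a i * n + b i) ∧
        (Set.ncard {n : ℕ | Q ≤ n ∧ n < 2 * Q ∧ ∀ i, (a i * n + b i).Prime} : ℝ) <
          c * (∏ i, (a i : ℝ) / (a i).totient) * Q / Real.log Q ^ (k + 1)} : ℝ) ≤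
        ε * Set.ncard {b : Fin (k + 1) → ℕ | (∀ i, 1 ≤ b i ∧ b i < a i) ∧ b 0 = b0 ∧
          ∀ p : ℕ, p.Prime → ∃ n : ℕ, ∀ i, ¬ p ∣ a i * n + b i} := by
  classical
  obtain ⟨c, δ, hc, hδ, h⟩ := Pool.Agent.P.MP_746f10_nt.AZ.main_fix k
  refine ⟨c, δ, hc, hδ, fun ε hε => ?_⟩
  obtain ⟨Q0, h⟩ := h ε hε
  refine ⟨Q0, fun Q hQ a b0 ha ha' => ?_⟩
  refine le_trans (le_of_eq ?_) ((h Q a b0 hQ ha fun i => ha' _ (Fin.succ_ne_zero i)).trans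
    (le_of_eq ?_))
  · congr 1
    rw [← Set.ncard_coe_finset]
    congr 1
    ext b
    have e : ({n : ℕ | Q ≤ n ∧ n < 2 * Q ∧ ∀ i, (a i * n + b i).Prime} : Set ℕ).ncard =
        ((Finset.Ico Q (2 * Q)).filter (fun n => ∀ i, (a i * n + b i).Prime)).card := by
      rw [← Set.ncard_coe_finset]
      congr 1
      ext n
      simp [and_assoc]
    rw [Finset.mem_coe, Finset.mem_filter, Fintype.mem_piFinset, Set.mem_ofPred_eq, e]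
    simp only [Finset.mem_Ico, Pool.Agent.P.MP_746f10_nt.AZ.Bd, Pool.Agent.P.MP_746f10_nt.AP.Adm]
  · congr 2
    rw [← Set.ncard_coe_finset]
    congr 1
    ext b
    rw [Finset.mem_coe, Finset.mem_filter, Fintype.mem_piFinset, Set.mem_ofPred_eq]
    simp only [Finset.mem_Ico, Pool.Agent.P.MP_746f10_nt.AP.Adm]

end Pool.Agent.Results.MP_746f10_nt.FixedFirstForm
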