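import Pool.Agent.P.MP_746f10_nt.LA.All
import Pool.Agent.P.MP_4ef411_nt.Al.Top

namespace Pool.Agent.Results.MP_746f10_nt.LargePrimeFactorsAll

/-- The proportion of n ≤ N at which all k forms are coprime to W and have a prime factor larger
than N ^ (1 - δ) tends to the product of the expected densities. -/
theorem result (k : ℕ) (a b : Fin k → ℕ) (ha : ∀ i, 0 < a i)
    (hab : ∀ i j, i ≠ j → a i * b j ≠ a j * b i) (W : ℕ) (hW : 0 < W) (δ : ℝ) (h0 : 0 < δ)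
    (h1 : δ < 1 / 2) :
    Filter.Tendsto
      (fun N : ℕ => (Set.ncard {n : ℕ | 1 ≤ n ∧ n ≤ N ∧ ∀ i, Nat.Coprime (a i * n + b i) W ∧
        ∃ p : ℕ, p.Prime ∧ p ∣ a i * n + b i ∧ (N : ℝ) ^ (1 - δ) < p} : ℝ) / N)
      Filter.atTop
      (nhds ((Set.ncard {c : ℕ | c < W ∧ ∀ i, Nat.Coprime (a i * c + b i) W} : ℝ) / W *
        (-Real.log (1 - δ)) ^ k)) :=
  Pool.Agent.P.MP_746f10_nt.LA.fin Pool.Agent.P.MP_4ef411_nt.Al.ga_all k a b ha hab W hW δ h0 h1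

end Pool.Agent.Results.MP_746f10_nt.LargePrimeFactorsAll
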