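import Pool.Agent.P.MP_746f10_nt.PZ.Main
import Pool.Agent.P.MP_26a8c3_nt.QE.All

namespace Pool.Agent.Results.MP_746f10_nt.PrimesAndP2

/-- In any product of `k` large finite families of linear forms with coefficients at most `H`,
almost every admissible tuple has a point `H ≤ n ≤ H ^ A` at which `m + 1` different forms at
positions in `J` are prime and each of the `k` values has at most two prime factors, counted with
multiplicity. A pair `(a, b)` stands for the form `a n + b`. -/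
theorem result (k m : ℕ) (J : Finset (Fin k)) (hJ : 183 * m < 50 * J.card) :
    ∃ (A : ℕ) (C c : ℝ), 0 < C ∧ 0 < c ∧
    ∀ (H K : ℕ) (F : Fin k → Finset (ℕ × ℕ)), 2 ≤ H → 1 ≤ K → (∀ i, K ≤ (F i).card) →
    (∀ i, ∀ x ∈ F i, 1 ≤ x.1 ∧ x.1 ≤ H ∧ x.2 ≤ H) →
    (Set.ncard {t : Fin k → ℕ × ℕ | (∀ i, t i ∈ F i) ∧
      (∀ p : ℕ, p.Prime → ∃ n : ℕ, ∀ i, ¬ p ∣ (t i).1 * n + (t i).2) ∧
      ¬ ∃ (n : ℕ) (I : Finset (Fin k)), H ≤ n ∧ n ≤ H ^ A ∧ I ⊆ J ∧ I.card = m + 1 ∧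
        Set.InjOn t I ∧ (∀ i ∈ I, ((t i).1 * n + (t i).2).Prime) ∧
        ∀ i, ((t i).1 * n + (t i).2).primeFactorsList.length ≤ 2} : ℝ) ≤
      C * (K : ℝ) ^ (-c) * ∏ i, ((F i).card : ℝ) :=
  Pool.Agent.P.MP_746f10_nt.PZ.mainZ (by norm_num) Pool.Agent.P.MP_26a8c3_nt.QE.zf k m J hJ

end Pool.Agent.Results.MP_746f10_nt.PrimesAndP2
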